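import Mathlib

/-!
Finite Fourier analysis for a family of isometries indexed by `(ℤ/m)²`.
-/

set_option autoImplicit false

namespace Pool.Agent.TAU97

open Finset ZMod

variable {m : ℕ} [NeZero m] {H : Type} [NormedAddCommGroup H] [InnerProductSpace ℂ H]

/-- the pairing of `(ℤ/m)²` -/
def dt (c s : ZMod m × ZMod m) : ZMod m := c.1 * s.1 + c.2 * s.2

/-- Fourier component of `v` -/
noncomputable def pr (A : ZMod m × ZMod m → (H ≃ₗᵢ[ℂ] H)) (c : ZMod m × ZMod m) (v : H) : H :=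
  (((m : ℂ)⁻¹) ^ 2) • ∑ s : ZMod m × ZMod m, (stdAddChar (-(dt c s)) : ℂ) • A s v

theorem pr_sub (A : ZMod m × ZMod m → (H ≃ₗᵢ[ℂ] H)) (c : ZMod m × ZMod m) (v w : H) :
    pr A c (v - w) = pr A c v - pr A c w := by
  unfold pr
  simp only [map_sub, smul_sub, Finset.sum_sub_distrib]

theorem orth (s : ZMod m × ZMod m) :
    ∑ c : ZMod m × ZMod m, (stdAddChar (dt c s) : ℂ) = if s = 0 then (m : ℂ) ^ 2 else 0 := by
  have h : ∑ c : ZMod m × ZMod m, (stdAddChar (dt c s) : ℂ) =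
      (∑ x : ZMod m, (stdAddChar (x * s.1) : ℂ)) * ∑ y : ZMod m, (stdAddChar (y * s.2) : ℂ) := by
    rw [Fintype.sum_prod_type, Finset.sum_mul_sum]
    refine Finset.sum_congr rfl fun x _ => Finset.sum_congr rfl fun y _ => ?_
    simp only [dt, AddChar.map_add_eq_mul]
  rw [h, AddChar.sum_mulShift _ (isPrimitive_stdAddChar m), AddChar.sum_mulShift _ (isPrimitive_stdAddChar m)]
  rw [ZMod.card]
  by_cases h1 : s.1 = 0
  · by_cases h2 : s.2 = 0
    · rw [if_pos h1, if_pos h2, if_pos (Prod.ext h1 h2)]; push_cast; ring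
    · have h0 : ¬ s = 0 := fun e => h2 (by rw [e]; rfl)
      rw [if_neg h2, if_neg h0]; simp
  · have h0 : ¬ s = 0 := fun e => h1 (by rw [e]; rfl)
    rw [if_neg h1, if_neg h0]; simp

theorem conj_std (x : ZMod m) : (starRingEnd ℂ) (stdAddChar x : ℂ) = stdAddChar (-x) := by
  rw [stdAddChar_apply, stdAddChar_apply, AddChar.map_neg_eq_inv]
  rw [Circle.coe_inv_eq_conj]

theorem dt_sub (c s t : ZMod m × ZMod m) : dt c (s - t) = dt c s - dt c t := by
  simp only [dt, Prod.fst_sub, Prod.snd_sub]; ring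

theorem parseval (A : ZMod m × ZMod m → (H ≃ₗᵢ[ℂ] H)) (v : H) :
    ∑ c : ZMod m × ZMod m, ‖pr A c v‖ ^ 2 = ‖v‖ ^ 2 := by
  have hm : (m : ℂ) ≠ 0 := by exact_mod_cast (NeZero.ne m)
  have key : ∀ c : ZMod m × ZMod m, ((‖pr A c v‖ ^ 2 : ℝ) : ℂ) =
      ((m : ℂ)⁻¹ ^ 4) * ∑ s : ZMod m × ZMod m, ∑ t : ZMod m × ZMod m,
        (stdAddChar (dt c (s - t)) : ℂ) * inner ℂ (A s v) (A t v) := by
    intro c
    have h1 : ((‖pr A c v‖ ^ 2 : ℝ) : ℂ) = inner ℂ (pr A c v) (pr A c v) := by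
      rw [inner_self_eq_norm_sq_to_K]; push_cast; rfl
    rw [h1]
    unfold pr
    rw [inner_smul_left, inner_smul_right, sum_inner]
    simp only [inner_sum, inner_smul_left, inner_smul_right, conj_std]
    have h2 : (starRingEnd ℂ) (((m : ℂ)⁻¹) ^ 2) = ((m : ℂ)⁻¹) ^ 2 := by
      simp
    rw [h2, ← mul_assoc, ← pow_add]
    congr 1
    refine Finset.sum_congr rfl fun s _ => Finset.sum_congr rfl fun t _ => ?_
    rw [dt_sub, sub_eq_add_neg, AddChar.map_add_eq_mul]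
    ring_nf
  have h3 : ((∑ c : ZMod m × ZMod m, ‖pr A c v‖ ^ 2 : ℝ) : ℂ) = ((‖v‖ ^ 2 : ℝ) : ℂ) := by
    rw [Complex.ofReal_sum]
    rw [Finset.sum_congr rfl (fun c _ => key c), ← Finset.mul_sum]
    rw [Finset.sum_comm]
    have h4 : ∀ s : ZMod m × ZMod m, ∑ c : ZMod m × ZMod m, ∑ t : ZMod m × ZMod m,
        (stdAddChar (dt c (s - t)) : ℂ) * inner ℂ (A s v) (A t v) = (m : ℂ) ^ 2 * ((‖v‖ ^ 2 : ℝ) : ℂ) := by
      intro s
      rw [Finset.sum_comm]
      have h5 : ∀ t : ZMod m × ZMod m, ∑ c : ZMod m × ZMod m,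
          (stdAddChar (dt c (s - t)) : ℂ) * inner ℂ (A s v) (A t v) =
          if t = s then (m : ℂ) ^ 2 * inner ℂ (A s v) (A s v) else 0 := by
        intro t
        rw [← Finset.sum_mul, orth]
        by_cases hts : t = s
        · subst hts; simp
        · rw [if_neg (fun h => hts (sub_eq_zero.mp h).symm), if_neg hts, zero_mul]
      rw [Finset.sum_congr rfl (fun t _ => h5 t), Finset.sum_ite_eq' Finset.univ s]
      rw [if_pos (Finset.mem_univ _)]
      congr 1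
      rw [inner_self_eq_norm_sq_to_K, LinearIsometryEquiv.norm_map]
      push_cast; rfl
    rw [Finset.sum_congr rfl (fun s _ => h4 s), Finset.sum_const, Finset.card_univ,
      Fintype.card_prod, ZMod.card, nsmul_eq_mul]
    push_cast
    field_simp
  exact_mod_cast h3

theorem eigen (A : ZMod m × ZMod m → (H ≃ₗᵢ[ℂ] H)) (hA : ∀ s t, A (s + t) = A s * A t)
    (c t : ZMod m × ZMod m) (v : H) :
    pr A c (A t v) = (stdAddChar (dt c t) : ℂ) • pr A c v := by
  unfold pr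
  rw [smul_comm (stdAddChar (dt c t) : ℂ) (((m : ℂ)⁻¹) ^ 2)]
  congr 1
  rw [Finset.smul_sum]
  rw [← Equiv.sum_comp (Equiv.addRight t) (fun s => (stdAddChar (dt c t) : ℂ) •
    ((stdAddChar (-(dt c s)) : ℂ) • A s v))]
  refine Finset.sum_congr rfl fun s _ => ?_
  simp only [Equiv.coe_addRight]
  rw [smul_smul, ← AddChar.map_add_eq_mul, hA]
  have : dt c t + -dt c (s + t) = -dt c s := by simp only [dt, Prod.fst_add, Prod.snd_add]; ring
  rw [this]
  rfl

theorem covar (A : ZMod m × ZMod m → (H ≃ₗᵢ[ℂ] H)) (g : H ≃ₗᵢ[ℂ] H)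
    (τ : ZMod m × ZMod m ≃ ZMod m × ZMod m) (hg : ∀ s, g * A s = A (τ s) * g)
    (c c' : ZMod m × ZMod m) (hc : ∀ s, dt c s = dt c' (τ s)) (v : H) :
    g (pr A c v) = pr A c' (g v) := by
  unfold pr
  rw [_root_.map_smul, map_sum]
  congr 1
  rw [← Equiv.sum_comp τ (fun s => (stdAddChar (-(dt c' s)) : ℂ) • A s (g v))]
  refine Finset.sum_congr rfl fun s _ => ?_
  rw [_root_.map_smul, hc s]
  congr 1
  exact congrArg (fun f : H ≃ₗᵢ[ℂ] H => f v) (hg s)

end Pool.Agent.TAU97
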