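import Mathlib

/-!
Relative gap, measure part: a nonnegative function on `(ℤ/m)²` that is almost invariant under the
two elementary shears and has small mass far from `0` has small mass outside `0`.
-/

set_option autoImplicit false

namespace Pool.Agent.TAU97

open Finset

variable {m : ℕ} [NeZero m]

/-- near the origin -/
def Near (c : ZMod m × ZMod m) : Prop := 4 * |c.1.valMinAbs| < m ∧ 4 * |c.2.valMinAbs| < m

theorem vma_add (x y : ZMod m) (hx : 4 * |x.valMinAbs| < m) (hy : 4 * |y.valMinAbs| < m) :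
    (x + y).valMinAbs = x.valMinAbs + y.valMinAbs := by
  rw [ZMod.valMinAbs_spec]
  refine ⟨by simp, ?_, ?_⟩
  · have := neg_abs_le x.valMinAbs; have := neg_abs_le y.valMinAbs; omega
  · have := le_abs_self x.valMinAbs; have := le_abs_self y.valMinAbs; omega

theorem vma_sub (x y : ZMod m) (hx : 4 * |x.valMinAbs| < m) (hy : 4 * |y.valMinAbs| < m) :
    (x - y).valMinAbs = x.valMinAbs - y.valMinAbs := by
  rw [ZMod.valMinAbs_spec]
  refine ⟨by simp, ?_, ?_⟩
  · have := neg_abs_le x.valMinAbs; have := le_abs_self y.valMinAbs; omega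
  · have := le_abs_self x.valMinAbs; have := neg_abs_le y.valMinAbs; omega

open Classical in
theorem measure (M : ZMod m × ZMod m → ℝ) (hM : ∀ c, 0 ≤ M c) (E : ℝ) (hE : 0 ≤ E)
    (hg1 : ∀ S S' : Finset (ZMod m × ZMod m), (∀ c ∈ S, (c.1, c.2 + c.1) ∈ S') →
      ∑ c ∈ S, M c ≤ 5 / 4 * ∑ c ∈ S', M c + 5 * E)
    (hg2 : ∀ S S' : Finset (ZMod m × ZMod m), (∀ c ∈ S, (c.1, c.2 - c.1) ∈ S') →
      ∑ c ∈ S, M c ≤ 5 / 4 * ∑ c ∈ S', M c + 5 * E)
    (hl1 : ∀ S S' : Finset (ZMod m × ZMod m), (∀ c ∈ S, (c.1 + c.2, c.2) ∈ S') →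
      ∑ c ∈ S, M c ≤ 5 / 4 * ∑ c ∈ S', M c + 5 * E)
    (hl2 : ∀ S S' : Finset (ZMod m × ZMod m), (∀ c ∈ S, (c.1 - c.2, c.2) ∈ S') →
      ∑ c ∈ S, M c ≤ 5 / 4 * ∑ c ∈ S', M c + 5 * E)
    (hfar : ∑ c ∈ univ.filter (fun c : ZMod m × ZMod m => ¬ Near c), M c ≤ E / 2) :
    ∑ c ∈ univ.filter (fun c : ZMod m × ZMod m => c ≠ 0), M c ≤ 80 * E := by
  -- the sets
  let far : Finset (ZMod m × ZMod m) := univ.filter (fun c => ¬ Near c)
  let P : Finset (ZMod m × ZMod m) := univ.filter (fun c => Near c ∧ 0 < c.1.valMinAbs * c.2.valMinAbs)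
  let Q : Finset (ZMod m × ZMod m) := univ.filter (fun c => Near c ∧ c.1.valMinAbs * c.2.valMinAbs < 0)
  let X : Finset (ZMod m × ZMod m) := univ.filter (fun c => Near c ∧ c.1.valMinAbs ≠ 0 ∧ c.2.valMinAbs = 0)
  let Y : Finset (ZMod m × ZMod m) := univ.filter (fun c => Near c ∧ c.1.valMinAbs = 0 ∧ c.2.valMinAbs ≠ 0)
  -- all of a quadrant type, split by the comparison of the coordinates
  let P1 : Finset (ZMod m × ZMod m) := univ.filter (fun c => 0 < c.1.valMinAbs * c.2.valMinAbs ∧ |c.1.valMinAbs| ≤ |c.2.valMinAbs|)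
  let P1' : Finset (ZMod m × ZMod m) := univ.filter (fun c => 0 < c.1.valMinAbs * c.2.valMinAbs ∧ |c.1.valMinAbs| < |c.2.valMinAbs|)
  let P2' : Finset (ZMod m × ZMod m) := univ.filter (fun c => 0 < c.1.valMinAbs * c.2.valMinAbs ∧ |c.2.valMinAbs| < |c.1.valMinAbs|)
  let Q1' : Finset (ZMod m × ZMod m) := univ.filter (fun c => c.1.valMinAbs * c.2.valMinAbs < 0 ∧ |c.1.valMinAbs| < |c.2.valMinAbs|)
  let Q2' : Finset (ZMod m × ZMod m) := univ.filter (fun c => c.1.valMinAbs * c.2.valMinAbs < 0 ∧ |c.2.valMinAbs| < |c.1.valMinAbs|)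
  have hsub : ∀ S T : Finset (ZMod m × ZMod m), S ⊆ T → ∑ c ∈ S, M c ≤ ∑ c ∈ T, M c := fun S T h =>
    Finset.sum_le_sum_of_subset_of_nonneg h (fun _ _ _ => hM _)
  have hun : ∀ S T : Finset (ZMod m × ZMod m), ∑ c ∈ S ∪ T, M c ≤ ∑ c ∈ S, M c + ∑ c ∈ T, M c := by
    intro S T
    have := Finset.sum_union_inter (s₁ := S) (s₂ := T) (f := M)
    have h0 : 0 ≤ ∑ c ∈ S ∩ T, M c := Finset.sum_nonneg (fun _ _ => hM _)
    linarith
  -- key integer facts
  have key1 : ∀ a b : ℤ, 0 < a * b → 0 < a * (b + a) ∧ |a| < |b + a| := by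
    intro a b h
    rcases lt_trichotomy a 0 with ha | ha | ha
    · have hb : b < 0 := by nlinarith
      refine ⟨by nlinarith, ?_⟩
      rw [abs_of_neg ha, abs_of_neg (by linarith)]; linarith
    · subst ha; simp at h
    · have hb : 0 < b := by nlinarith
      refine ⟨by nlinarith, ?_⟩
      rw [abs_of_pos ha, abs_of_pos (by linarith)]; linarith
  have key2 : ∀ a b : ℤ, a * b < 0 → a * (b - a) < 0 ∧ |a| < |b - a| := by
    intro a b h
    rcases lt_trichotomy a 0 with ha | ha | ha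
    · have hb : 0 < b := by nlinarith
      refine ⟨by nlinarith, ?_⟩
      rw [abs_of_neg ha, abs_of_pos (by linarith)]; linarith
    · subst ha; simp at h
    · have hb : b < 0 := by nlinarith
      refine ⟨by nlinarith, ?_⟩
      rw [abs_of_pos ha, abs_of_neg (by linarith)]; linarith
  -- transfers
  have hP1 : ∑ c ∈ P, M c ≤ 5 / 4 * ∑ c ∈ P1', M c + 5 * E := by
    apply hg1
    intro c hc
    simp only [P, P1', mem_filter, mem_univ, true_and] at hc ⊢
    obtain ⟨hn, hp⟩ := hc
    rw [vma_add _ _ hn.2 hn.1]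
    exact key1 _ _ hp
  have hP2 : ∑ c ∈ P, M c ≤ 5 / 4 * ∑ c ∈ P2', M c + 5 * E := by
    apply hl1
    intro c hc
    simp only [P, P2', mem_filter, mem_univ, true_and] at hc ⊢
    obtain ⟨hn, hp⟩ := hc
    rw [vma_add _ _ hn.1 hn.2]
    have := key1 c.2.valMinAbs c.1.valMinAbs (by rw [mul_comm]; exact hp)
    rw [mul_comm]
    exact this
  have hQ1 : ∑ c ∈ Q, M c ≤ 5 / 4 * ∑ c ∈ Q1', M c + 5 * E := by
    apply hg2
    intro c hc
    simp only [Q, Q1', mem_filter, mem_univ, true_and] at hc ⊢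
    obtain ⟨hn, hp⟩ := hc
    rw [vma_sub _ _ hn.2 hn.1]
    exact key2 _ _ hp
  have hQ2 : ∑ c ∈ Q, M c ≤ 5 / 4 * ∑ c ∈ Q2', M c + 5 * E := by
    apply hl2
    intro c hc
    simp only [Q, Q2', mem_filter, mem_univ, true_and] at hc ⊢
    obtain ⟨hn, hp⟩ := hc
    rw [vma_sub _ _ hn.1 hn.2]
    have := key2 c.2.valMinAbs c.1.valMinAbs (by rw [mul_comm]; exact hp)
    rw [mul_comm]
    exact this
  have hX : ∑ c ∈ X, M c ≤ 5 / 4 * ∑ c ∈ P ∪ far, M c + 5 * E := by
    apply hg1
    intro c hc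
    simp only [X, P, far, mem_filter, mem_univ, true_and, mem_union] at hc ⊢
    obtain ⟨hn, h1, h2⟩ := hc
    by_cases hne : Near (c.1, c.2 + c.1)
    · left
      refine ⟨hne, ?_⟩
      show 0 < c.1.valMinAbs * (c.2 + c.1).valMinAbs
      rw [vma_add _ _ hn.2 hn.1, h2, zero_add]
      exact mul_self_pos.mpr h1
    · right; exact hne
  have hY : ∑ c ∈ Y, M c ≤ 5 / 4 * ∑ c ∈ P ∪ far, M c + 5 * E := by
    apply hl1
    intro c hc
    simp only [Y, P, far, mem_filter, mem_univ, true_and, mem_union] at hc ⊢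
    obtain ⟨hn, h1, h2⟩ := hc
    by_cases hne : Near (c.1 + c.2, c.2)
    · left
      refine ⟨hne, ?_⟩
      show 0 < (c.1 + c.2).valMinAbs * c.2.valMinAbs
      rw [vma_add _ _ hn.1 hn.2, h1, zero_add]
      exact mul_self_pos.mpr h2
    · right; exact hne
  have hPs : ∑ c ∈ P1', M c + ∑ c ∈ P2', M c ≤ ∑ c ∈ P ∪ far, M c := by
    rw [← Finset.sum_union]
    · apply hsub
      intro c hc
      simp only [P1', P2', P, far, mem_filter, mem_univ, true_and, mem_union] at hc ⊢
      by_cases hn : Near c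
      · left; refine ⟨hn, ?_⟩; rcases hc with h | h <;> exact h.1
      · right; exact hn
    · rw [Finset.disjoint_left]
      intro c h1 h2
      simp only [P1', P2', mem_filter, mem_univ, true_and] at h1 h2
      exact absurd h1.2 (not_lt.mpr h2.2.le)
  have hQs : ∑ c ∈ Q1', M c + ∑ c ∈ Q2', M c ≤ ∑ c ∈ Q ∪ far, M c := by
    rw [← Finset.sum_union]
    · apply hsub
      intro c hc
      simp only [Q1', Q2', Q, far, mem_filter, mem_univ, true_and, mem_union] at hc ⊢
      by_cases hn : Near c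
      · left; refine ⟨hn, ?_⟩; rcases hc with h | h <;> exact h.1
      · right; exact hn
    · rw [Finset.disjoint_left]
      intro c h1 h2
      simp only [Q1', Q2', mem_filter, mem_univ, true_and] at h1 h2
      exact absurd h1.2 (not_lt.mpr h2.2.le)
  have hPf := hun P far
  have hQf := hun Q far
  have hfar' : ∑ c ∈ far, M c ≤ E / 2 := hfar
  have htot : ∑ c ∈ univ.filter (fun c : ZMod m × ZMod m => c ≠ 0), M c ≤
      ∑ c ∈ far, M c + (∑ c ∈ P, M c + (∑ c ∈ Q, M c + (∑ c ∈ X, M c + ∑ c ∈ Y, M c))) := by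
    calc ∑ c ∈ univ.filter (fun c : ZMod m × ZMod m => c ≠ 0), M c
        ≤ ∑ c ∈ far ∪ (P ∪ (Q ∪ (X ∪ Y))), M c := by
          apply hsub
          intro c hc
          simp only [X, Y, Q, P, far, mem_filter, mem_univ, true_and, mem_union] at hc ⊢
          by_cases hn : Near c
          · right
            rcases lt_trichotomy (c.1.valMinAbs * c.2.valMinAbs) 0 with h | h | h
            · right; left; exact ⟨hn, h⟩
            · right; right
              rcases mul_eq_zero.mp h with h1 | h1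
              · right
                refine ⟨hn, h1, ?_⟩
                intro h2
                apply hc
                rw [ZMod.valMinAbs_eq_zero] at h1 h2
                exact Prod.ext h1 h2
              · left
                refine ⟨hn, ?_, h1⟩
                intro h2
                apply hc
                rw [ZMod.valMinAbs_eq_zero] at h1 h2
                exact Prod.ext h2 h1
            · left; exact ⟨hn, h⟩
          · left; exact hn
      _ ≤ _ := by
          have h1 := hun far (P ∪ (Q ∪ (X ∪ Y)))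
          have h2 := hun P (Q ∪ (X ∪ Y))
          have h3 := hun Q (X ∪ Y)
          have h4 := hun X Y
          linarith
  linarith

end Pool.Agent.TAU97
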