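import Pool.Agent.FS84.Kaz

/-!
`HasNear` from a spectral gap over all representations with a kernel of finite index.
(The proof is that of `FS84.near_invariant`.)
-/

set_option autoImplicit false
open Finset

namespace Pool.Agent.TAU97

open Pool.Agent.H51K Pool.Agent.FS84

/-- almost invariant sets are close to invariant sets, from a spectral gap over the
representations with a kernel of finite index -/
theorem near_of_gap {G : Type} [Group G]
    (h : ∃ (F : Finset G) (ε : ℝ), 0 < ε ∧ ∀ (H : Type)
      [NormedAddCommGroup H] [InnerProductSpace ℂ H] [CompleteSpace H]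
      (ρ : G →* (H ≃ₗᵢ[ℂ] H)), (ρ.ker).FiniteIndex → ∀ v ∈ (invS ρ)ᗮ,
        ε ^ 2 * ‖v‖ ^ 2 ≤ ∑ a ∈ F, ‖ρ a v - v‖ ^ 2) : HasNear G := by
  classical
  obtain ⟨F, ε, hε, hgap⟩ := h
  refine ⟨F, 8 / ε ^ 2, by positivity, ?_⟩
  intro X _ _ ρ A
  obtain ⟨y, hy, z, hz, hvyz⟩ :=
    Submodule.exists_add_mem_mem_orthogonal (K := invS (permRep ρ)) (ind A)
  have hyx : ∀ g x, y (ρ g x) = y x := by
    intro g x
    have h1 := hy g
    have h2 : permRep ρ g y (ρ g x) = y (ρ g x) := by rw [h1]
    rw [permRep_apply] at h2
    simpa using h2.symm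
  have hmove : ∀ a, permRep ρ a z - z = permRep ρ a (ind A) - ind A := by
    intro a
    rw [hvyz, map_add, hy a]
    abel
  have hker : ((permRep ρ).ker).FiniteIndex := by
    have hle : ρ.ker ≤ (permRep ρ).ker := by
      intro g hg
      rw [MonoidHom.mem_ker] at hg ⊢
      ext v x
      rw [permRep_apply, hg]
      rfl
    have : Finite ρ.range := inferInstance
    have hfi : (ρ.ker).FiniteIndex := inferInstance
    exact Subgroup.finiteIndex_of_le hle
  have h1 := hgap _ (permRep ρ) hker z hz
  rw [Finset.sum_congr rfl fun a _ => by rw [hmove a, norm_move]] at h1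
  refine ⟨univ.filter fun x => (1 : ℝ) / 2 < (y x).re, ?_, ?_⟩
  · intro g x
    simp only [mem_filter, mem_univ, true_and, hyx]
  · set B := univ.filter fun x => (1 : ℝ) / 2 < (y x).re with hB
    have hzx : ∀ x, z x = ind A x - y x := by
      intro x
      rw [hvyz]
      simp
    have h2 : ((A \ B).card + (B \ A).card : ℝ) * (1 / 4) ≤ ‖z‖ ^ 2 := by
      rw [EuclideanSpace.norm_sq_eq]
      have hdis : Disjoint (A \ B) (B \ A) := by
        rw [Finset.disjoint_left]
        intro x hx hx'
        exact (Finset.mem_sdiff.1 hx').2 (Finset.mem_sdiff.1 hx).1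
      have h3 : ((A \ B).card + (B \ A).card : ℝ) * (1 / 4)
          = ∑ x ∈ (A \ B) ∪ (B \ A), (1 / 4 : ℝ) := by
        rw [Finset.sum_const, Finset.card_union_of_disjoint hdis]
        simp
      rw [h3]
      calc ∑ x ∈ (A \ B) ∪ (B \ A), (1 / 4 : ℝ)
          ≤ ∑ x ∈ (A \ B) ∪ (B \ A), ‖z x‖ ^ 2 := by
            apply Finset.sum_le_sum
            intro x hx
            have hre : |(z x).re| ≤ ‖z x‖ := Complex.abs_re_le_norm _
            have h4 : 1 / 2 ≤ |(z x).re| := by
              rcases Finset.mem_union.1 hx with hx | hx
              · have h5 := Finset.mem_sdiff.1 hx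
                have h6 : (y x).re ≤ 1 / 2 := by
                  by_contra hc
                  exact h5.2 (by simp only [hB, mem_filter, mem_univ, true_and]; linarith)
                rw [hzx, ind_apply, if_pos h5.1]
                rw [Complex.sub_re, Complex.one_re]
                rw [le_abs]
                left
                linarith
              · have h5 := Finset.mem_sdiff.1 hx
                have h6 : 1 / 2 < (y x).re := by
                  have := h5.1
                  simpa only [hB, mem_filter, mem_univ, true_and] using this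
                rw [hzx, ind_apply, if_neg h5.2]
                rw [Complex.sub_re, Complex.zero_re]
                rw [le_abs]
                right
                linarith
            have h7 : 1 / 2 ≤ ‖z x‖ := h4.trans hre
            nlinarith
        _ ≤ ∑ x, ‖z x‖ ^ 2 :=
            Finset.sum_le_sum_of_subset_of_nonneg (Finset.subset_univ _)
              fun _ _ _ => sq_nonneg _
    have h3 : ε ^ 2 * (((A \ B).card + (B \ A).card : ℝ) * (1 / 4)) ≤
        2 * ∑ a ∈ F, ((A.filter fun x => ρ a x ∉ A).card : ℝ) := by
      rw [Finset.mul_sum]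
      exact (mul_le_mul_of_nonneg_left h2 (by positivity)).trans h1
    rw [div_mul_eq_mul_div, le_div_iff₀ (by positivity)]
    linarith

end Pool.Agent.TAU97
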