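import Mathlib
import Pool.Agent.H51K.KazGap

/-!
A finite commutative group of isometries commuting with a representation: a component of a vector
on which the finite group acts by scalars and whose displacement is relatively at most that of the
vector.
-/

set_option autoImplicit false

namespace Pool.Agent.TAU97

open Finset Pool.Agent.H51K

section
variable {α : Type} [AddCommGroup α] [Fintype α] {H : Type} [NormedAddCommGroup H]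
  [InnerProductSpace ℂ H]

/-- component of `v` for the character `ψ` -/
noncomputable def cmp (A : α → (H ≃ₗᵢ[ℂ] H)) (ψ : AddChar α ℂ) (v : H) : H :=
  ((Fintype.card α : ℂ)⁻¹) • ∑ s : α, (ψ (-s) : ℂ) • A s v

theorem cmp_sub (A : α → (H ≃ₗᵢ[ℂ] H)) (ψ : AddChar α ℂ) (v w : H) :
    cmp A ψ (v - w) = cmp A ψ v - cmp A ψ w := by
  unfold cmp
  simp only [map_sub, smul_sub, Finset.sum_sub_distrib]

theorem cmp_parseval (A : α → (H ≃ₗᵢ[ℂ] H)) (v : H) :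
    ∑ ψ : AddChar α ℂ, ‖cmp A ψ v‖ ^ 2 = ‖v‖ ^ 2 := by
  classical
  have hm : (Fintype.card α : ℂ) ≠ 0 := by exact_mod_cast Fintype.card_ne_zero
  have key : ∀ ψ : AddChar α ℂ, ((‖cmp A ψ v‖ ^ 2 : ℝ) : ℂ) =
      ((Fintype.card α : ℂ)⁻¹ ^ 2) * ∑ s : α, ∑ t : α,
        (ψ (s - t) : ℂ) * inner ℂ (A s v) (A t v) := by
    intro ψ
    have h1 : ((‖cmp A ψ v‖ ^ 2 : ℝ) : ℂ) = inner ℂ (cmp A ψ v) (cmp A ψ v) := by
      rw [inner_self_eq_norm_sq_to_K]; push_cast; rfl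
    rw [h1]
    unfold cmp
    rw [inner_smul_left, inner_smul_right, sum_inner]
    simp only [inner_sum, inner_smul_left, inner_smul_right]
    have h2 : (starRingEnd ℂ) ((Fintype.card α : ℂ)⁻¹) = (Fintype.card α : ℂ)⁻¹ := by
      simp
    rw [h2, ← mul_assoc, ← pow_two]
    congr 1
    refine Finset.sum_congr rfl fun s _ => Finset.sum_congr rfl fun t _ => ?_
    rw [sub_eq_add_neg, AddChar.map_add_eq_mul, ← AddChar.map_neg_eq_conj, neg_neg]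
    ring_nf
  have h3 : ((∑ ψ : AddChar α ℂ, ‖cmp A ψ v‖ ^ 2 : ℝ) : ℂ) = ((‖v‖ ^ 2 : ℝ) : ℂ) := by
    rw [Complex.ofReal_sum]
    rw [Finset.sum_congr rfl (fun c _ => key c), ← Finset.mul_sum]
    rw [Finset.sum_comm]
    have h4 : ∀ s : α, ∑ ψ : AddChar α ℂ, ∑ t : α,
        (ψ (s - t) : ℂ) * inner ℂ (A s v) (A t v) = (Fintype.card α : ℂ) * ((‖v‖ ^ 2 : ℝ) : ℂ) := by
      intro s
      rw [Finset.sum_comm]
      have h5 : ∀ t : α, ∑ ψ : AddChar α ℂ,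
          (ψ (s - t) : ℂ) * inner ℂ (A s v) (A t v) =
          if t = s then (Fintype.card α : ℂ) * inner ℂ (A s v) (A s v) else 0 := by
        intro t
        rw [← Finset.sum_mul, AddChar.sum_apply_eq_ite]
        by_cases hts : t = s
        · subst hts; simp
        · rw [if_neg (fun h => hts (sub_eq_zero.mp h).symm), if_neg hts, zero_mul]
      rw [Finset.sum_congr rfl (fun t _ => h5 t), Finset.sum_ite_eq' Finset.univ s]
      rw [if_pos (Finset.mem_univ _)]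
      congr 1
      rw [inner_self_eq_norm_sq_to_K, LinearIsometryEquiv.norm_map]
      push_cast; rfl
    rw [Finset.sum_congr rfl (fun s _ => h4 s), Finset.sum_const, Finset.card_univ, nsmul_eq_mul]
    field_simp
  exact_mod_cast h3

theorem cmp_eigen (A : α → (H ≃ₗᵢ[ℂ] H)) (hA : ∀ s t, A (s + t) = A s * A t)
    (ψ : AddChar α ℂ) (t : α) (v : H) : A t (cmp A ψ v) = (ψ t : ℂ) • cmp A ψ v := by
  unfold cmp
  rw [_root_.map_smul, map_sum, smul_comm (ψ t : ℂ) ((Fintype.card α : ℂ)⁻¹)]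
  congr 1
  rw [Finset.smul_sum]
  rw [← Equiv.sum_comp (Equiv.addRight t) (fun s => (ψ t : ℂ) • ((ψ (-s) : ℂ) • A s v))]
  refine Finset.sum_congr rfl fun s _ => ?_
  simp only [Equiv.coe_addRight]
  rw [_root_.map_smul, smul_smul, ← AddChar.map_add_eq_mul, add_comm s t, hA]
  have : t + -(t + s) = -s := by abel
  rw [this]
  rfl

theorem cmp_comm (A : α → (H ≃ₗᵢ[ℂ] H)) (g : H ≃ₗᵢ[ℂ] H) (hg : ∀ s, g * A s = A s * g)
    (ψ : AddChar α ℂ) (v : H) : g (cmp A ψ v) = cmp A ψ (g v) := by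
  unfold cmp
  rw [_root_.map_smul, map_sum]
  congr 1
  refine Finset.sum_congr rfl fun s _ => ?_
  rw [_root_.map_smul]
  congr 1
  exact congrArg (fun f : H ≃ₗᵢ[ℂ] H => f v) (hg s)

theorem cmp_orth {G : Type} [Group G] (ρ : G →* (H ≃ₗᵢ[ℂ] H)) (A : α → (H ≃ₗᵢ[ℂ] H))
    (hA : ∀ s t, A (s + t) = A s * A t) (hc : ∀ g s, ρ g * A s = A s * ρ g)
    (ψ : AddChar α ℂ) (v : H) (hv : v ∈ (invS ρ)ᗮ) : cmp A ψ v ∈ (invS ρ)ᗮ := by
  unfold cmp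
  apply Submodule.smul_mem
  apply Submodule.sum_mem
  intro s _
  apply Submodule.smul_mem
  rw [Submodule.mem_orthogonal] at hv ⊢
  intro w hw
  have h0 : A 0 = 1 := by
    have := hA 0 0
    rw [add_zero] at this
    exact (mul_eq_left.mp this.symm)
  have h1 : A s (A (-s) w) = w := by
    have : A s * A (-s) = 1 := by rw [← hA, add_neg_cancel, h0]
    exact congrArg (fun f : H ≃ₗᵢ[ℂ] H => f w) this
  have h2 : A (-s) w ∈ invS ρ := by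
    rw [mem_invS]
    intro g
    have h3 := congrArg (fun f : H ≃ₗᵢ[ℂ] H => f w) (hc g (-s))
    have h4 : ρ g (A (-s) w) = A (-s) (ρ g w) := h3
    rw [h4, (mem_invS ρ w).1 hw g]
  calc inner ℂ w (A s v) = inner ℂ (A s (A (-s) w)) (A s v) := by rw [h1]
    _ = inner ℂ (A (-s) w) v := by rw [LinearIsometryEquiv.inner_map_map]
    _ = 0 := hv _ h2

theorem pick {G : Type} [Group G] (ρ : G →* (H ≃ₗᵢ[ℂ] H)) (A : α → (H ≃ₗᵢ[ℂ] H))
    (hA : ∀ s t, A (s + t) = A s * A t) (hc : ∀ g s, ρ g * A s = A s * ρ g)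
    (F : Finset G) (v : H) (hv : v ∈ (invS ρ)ᗮ) (hv0 : v ≠ 0) :
    ∃ (w : H) (ψ : AddChar α ℂ), w ≠ 0 ∧ w ∈ (invS ρ)ᗮ ∧ (∀ s, A s w = (ψ s : ℂ) • w) ∧
      (∑ a ∈ F, ‖ρ a w - w‖ ^ 2) * ‖v‖ ^ 2 ≤ (∑ a ∈ F, ‖ρ a v - v‖ ^ 2) * ‖w‖ ^ 2 := by
  classical
  by_contra hcon
  push Not at hcon
  have hN : ∀ ψ : AddChar α ℂ, cmp A ψ v ≠ 0 →
      (∑ a ∈ F, ‖ρ a v - v‖ ^ 2) * ‖cmp A ψ v‖ ^ 2 <
      (∑ a ∈ F, ‖ρ a (cmp A ψ v) - cmp A ψ v‖ ^ 2) * ‖v‖ ^ 2 := fun ψ h =>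
    hcon (cmp A ψ v) ψ h (cmp_orth ρ A hA hc ψ v hv) (fun s => cmp_eigen A hA ψ s v)
  have hE : ∑ ψ : AddChar α ℂ, ∑ a ∈ F, ‖ρ a (cmp A ψ v) - cmp A ψ v‖ ^ 2 =
      ∑ a ∈ F, ‖ρ a v - v‖ ^ 2 := by
    rw [Finset.sum_comm]
    refine Finset.sum_congr rfl fun a _ => ?_
    rw [← cmp_parseval A (ρ a v - v)]
    refine Finset.sum_congr rfl fun ψ _ => ?_
    rw [cmp_sub, cmp_comm A (ρ a) (hc a)]
  have hex : ∃ ψ : AddChar α ℂ, cmp A ψ v ≠ 0 := by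
    by_contra h
    push Not at h
    have h1 := cmp_parseval A v
    rw [Finset.sum_eq_zero (fun ψ _ => by rw [h ψ]; simp)] at h1
    exact hv0 (norm_eq_zero.mp (pow_eq_zero_iff (two_ne_zero)|>.mp h1.symm))
  have hlt : ∑ ψ : AddChar α ℂ, (∑ a ∈ F, ‖ρ a v - v‖ ^ 2) * ‖cmp A ψ v‖ ^ 2 <
      ∑ ψ : AddChar α ℂ, (∑ a ∈ F, ‖ρ a (cmp A ψ v) - cmp A ψ v‖ ^ 2) * ‖v‖ ^ 2 := by
    apply Finset.sum_lt_sum
    · intro ψ _
      by_cases h : cmp A ψ v = 0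
      · rw [h]; simp
      · exact (hN ψ h).le
    · obtain ⟨ψ, h⟩ := hex
      exact ⟨ψ, Finset.mem_univ _, hN ψ h⟩
  rw [← Finset.mul_sum, ← Finset.sum_mul, cmp_parseval, hE] at hlt
  exact lt_irrefl _ hlt

end

/-- the same for a finite commutative subgroup of the isometries -/
theorem pickSub {H : Type} [NormedAddCommGroup H] [InnerProductSpace ℂ H] {G : Type} [Group G]
    (ρ : G →* (H ≃ₗᵢ[ℂ] H)) (A₀ : Subgroup (H ≃ₗᵢ[ℂ] H)) [Finite A₀]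
    (hcomm : ∀ x ∈ A₀, ∀ y ∈ A₀, x * y = y * x) (hc : ∀ g, ∀ x ∈ A₀, ρ g * x = x * ρ g)
    (F : Finset G) (v : H) (hv : v ∈ (invS ρ)ᗮ) (hv0 : v ≠ 0) :
    ∃ (w : H), w ≠ 0 ∧ w ∈ (invS ρ)ᗮ ∧ (∀ x ∈ A₀, ∃ z : ℂ, ‖z‖ = 1 ∧ x w = z • w) ∧
      (∑ a ∈ F, ‖ρ a w - w‖ ^ 2) * ‖v‖ ^ 2 ≤ (∑ a ∈ F, ‖ρ a v - v‖ ^ 2) * ‖w‖ ^ 2 := by
  let _ : CommGroup A₀ :=
    { (inferInstance : Group A₀) with
      mul_comm := fun x y => Subtype.ext (hcomm x x.2 y y.2) }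
  have : Finite (Additive A₀) := inferInstanceAs (Finite A₀)
  let _ : Fintype (Additive A₀) := Fintype.ofFinite _
  obtain ⟨w, ψ, h1, h2, h3, h4⟩ := pick (α := Additive A₀) ρ
    (fun s => ((Additive.toMul s : A₀) : H ≃ₗᵢ[ℂ] H)) (fun s t => rfl)
    (fun g s => hc g _ (Additive.toMul s).2) F v hv hv0
  refine ⟨w, h1, h2, fun x hx => ⟨ψ (Additive.ofMul ⟨x, hx⟩), AddChar.norm_apply ψ _, ?_⟩, h4⟩
  exact h3 (Additive.ofMul ⟨x, hx⟩)

end Pool.Agent.TAU97
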