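import Pool.Agent.TAU97.Four
import Pool.Agent.TAU97.Meas

/-!
Relative spectral gap: two commuting elements `a, b` acting with finite order, with two elements
`g, l` acting on them by the elementary shears.
-/

set_option autoImplicit false

namespace Pool.Agent.TAU97

open Finset

section
variable {m : ℕ} [NeZero m] {H : Type} [NormedAddCommGroup H] [InnerProductSpace ℂ H]

/-- the family of isometries -/
def fam (m : ℕ) (α β : H ≃ₗᵢ[ℂ] H) (s : ZMod m × ZMod m) : H ≃ₗᵢ[ℂ] H :=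
  α ^ s.1.val * β ^ s.2.val

theorem pw_add {U : Type} [Group U] (α : U) (h : α ^ m = 1) (s t : ZMod m) :
    α ^ (s + t).val = α ^ s.val * α ^ t.val := by
  rw [← pow_add, ZMod.val_add]
  exact (pow_eq_pow_mod _ h).symm

theorem fam_add (α β : H ≃ₗᵢ[ℂ] H) (hα : α ^ m = 1) (hβ : β ^ m = 1) (hab : α * β = β * α)
    (s t : ZMod m × ZMod m) : fam m α β (s + t) = fam m α β s * fam m α β t := by
  unfold fam
  rw [Prod.fst_add, Prod.snd_add, pw_add α hα, pw_add β hβ]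
  have h : Commute (α ^ t.1.val) (β ^ s.2.val) := (Commute.pow_pow (show Commute α β from hab) _ _)
  calc α ^ s.1.val * α ^ t.1.val * (β ^ s.2.val * β ^ t.2.val)
      = α ^ s.1.val * (α ^ t.1.val * β ^ s.2.val) * β ^ t.2.val := by simp only [mul_assoc]
    _ = α ^ s.1.val * (β ^ s.2.val * α ^ t.1.val) * β ^ t.2.val := by rw [h.eq]
    _ = _ := by simp only [mul_assoc]

/-- the shear `(x, y) ↦ (x + y, y)` -/
def sh1 (m : ℕ) : ZMod m × ZMod m ≃ ZMod m × ZMod m where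
  toFun s := (s.1 + s.2, s.2)
  invFun s := (s.1 - s.2, s.2)
  left_inv s := by simp
  right_inv s := by simp

/-- the shear `(x, y) ↦ (x, x + y)` -/
def sh2 (m : ℕ) : ZMod m × ZMod m ≃ ZMod m × ZMod m where
  toFun s := (s.1, s.1 + s.2)
  invFun s := (s.1, s.2 - s.1)
  left_inv s := by simp
  right_inv s := by simp

theorem fam_g (α β γ : H ≃ₗᵢ[ℂ] H) (hα : α ^ m = 1) (hab : α * β = β * α)
    (h1 : γ * α = α * γ) (h2 : γ * β = α * β * γ) (s : ZMod m × ZMod m) :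
    γ * fam m α β s = fam m α β (sh1 m s) * γ := by
  have e1 : ∀ n : ℕ, γ * α ^ n = α ^ n * γ := fun n => (Commute.pow_right (show Commute γ α from h1) n).eq
  have e2 : ∀ n : ℕ, γ * β ^ n = α ^ n * β ^ n * γ := by
    intro n
    induction n with
    | zero => simp
    | succ n ih =>
      have hc : Commute (β ^ n) α := (Commute.pow_right (show Commute α β from hab) n).symm
      calc γ * β ^ (n + 1) = (γ * β ^ n) * β := by rw [pow_succ, mul_assoc]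
        _ = α ^ n * β ^ n * (γ * β) := by rw [ih, mul_assoc]
        _ = α ^ n * (β ^ n * α) * β * γ := by rw [h2]; simp only [mul_assoc]
        _ = α ^ n * (α * β ^ n) * β * γ := by rw [hc.eq]
        _ = α ^ (n + 1) * β ^ (n + 1) * γ := by rw [pow_succ, pow_succ]; simp only [mul_assoc]
  show γ * (α ^ s.1.val * β ^ s.2.val) = α ^ (s.1 + s.2).val * β ^ s.2.val * γ
  rw [pw_add α hα, ← mul_assoc, e1, mul_assoc, e2]
  simp only [mul_assoc]

theorem fam_l (α β γ : H ≃ₗᵢ[ℂ] H) (hβ : β ^ m = 1) (hab : α * β = β * α)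
    (h1 : γ * α = α * β * γ) (h2 : γ * β = β * γ) (s : ZMod m × ZMod m) :
    γ * fam m α β s = fam m α β (sh2 m s) * γ := by
  have e1 : ∀ n : ℕ, γ * β ^ n = β ^ n * γ := fun n => (Commute.pow_right (show Commute γ β from h2) n).eq
  have e2 : ∀ n : ℕ, γ * α ^ n = α ^ n * β ^ n * γ := by
    intro n
    induction n with
    | zero => simp
    | succ n ih =>
      have hc : Commute (β ^ n) α := (Commute.pow_right (show Commute α β from hab) n).symm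
      calc γ * α ^ (n + 1) = (γ * α ^ n) * α := by rw [pow_succ, mul_assoc]
        _ = α ^ n * β ^ n * (γ * α) := by rw [ih, mul_assoc]
        _ = α ^ n * (β ^ n * α) * β * γ := by rw [h1]; simp only [mul_assoc]
        _ = α ^ n * (α * β ^ n) * β * γ := by rw [hc.eq]
        _ = α ^ (n + 1) * β ^ (n + 1) * γ := by rw [pow_succ, pow_succ]; simp only [mul_assoc]
  show γ * (α ^ s.1.val * β ^ s.2.val) = α ^ s.1.val * β ^ (s.1 + s.2).val * γ
  rw [pw_add β hβ, ← mul_assoc, e2, mul_assoc, mul_assoc, e1]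
  simp only [mul_assoc]

/-- comparison of the spectral measures of two vectors -/
theorem compare (A : ZMod m × ZMod m → (H ≃ₗᵢ[ℂ] H)) (v w : H) (S : Finset (ZMod m × ZMod m)) :
    ∑ c ∈ S, ‖pr A c v‖ ^ 2 ≤ 5 / 4 * ∑ c ∈ S, ‖pr A c w‖ ^ 2 + 5 * ‖v - w‖ ^ 2 := by
  have h1 : ∀ c, ‖pr A c v‖ ^ 2 ≤ 5 / 4 * ‖pr A c w‖ ^ 2 + 5 * ‖pr A c (v - w)‖ ^ 2 := by
    intro c
    have h : pr A c v = pr A c w + pr A c (v - w) := by rw [pr_sub]; abel
    have h2 : ‖pr A c v‖ ≤ ‖pr A c w‖ + ‖pr A c (v - w)‖ := by rw [h]; exact norm_add_le _ _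
    have h3 := norm_nonneg (pr A c v)
    nlinarith [sq_nonneg (‖pr A c w‖ - 4 * ‖pr A c (v - w)‖), norm_nonneg (pr A c w),
      norm_nonneg (pr A c (v - w))]
  calc ∑ c ∈ S, ‖pr A c v‖ ^ 2 ≤ ∑ c ∈ S, (5 / 4 * ‖pr A c w‖ ^ 2 + 5 * ‖pr A c (v - w)‖ ^ 2) :=
        Finset.sum_le_sum fun c _ => h1 c
    _ = 5 / 4 * ∑ c ∈ S, ‖pr A c w‖ ^ 2 + 5 * ∑ c ∈ S, ‖pr A c (v - w)‖ ^ 2 := by
        rw [Finset.sum_add_distrib, Finset.mul_sum, Finset.mul_sum]
    _ ≤ _ := by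
        have : ∑ c ∈ S, ‖pr A c (v - w)‖ ^ 2 ≤ ∑ c, ‖pr A c (v - w)‖ ^ 2 :=
          Finset.sum_le_sum_of_subset_of_nonneg (Finset.subset_univ _) (fun _ _ _ => sq_nonneg _)
        rw [parseval] at this
        linarith

/-- transfer along a bijection -/
theorem transfer (A : ZMod m × ZMod m → (H ≃ₗᵢ[ℂ] H)) (v w : H) (E : ℝ) (hE : ‖w - v‖ ^ 2 ≤ E)
    (σ : ZMod m × ZMod m → ZMod m × ZMod m) (hσ : Function.Injective σ)
    (hs : (∀ c, ‖pr A (σ c) w‖ = ‖pr A c v‖) ∨ (∀ c, ‖pr A (σ c) v‖ = ‖pr A c w‖))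
    (S S' : Finset (ZMod m × ZMod m)) (h : ∀ c ∈ S, σ c ∈ S') :
    ∑ c ∈ S, ‖pr A c v‖ ^ 2 ≤ 5 / 4 * ∑ c ∈ S', ‖pr A c v‖ ^ 2 + 5 * E := by
  classical
  have hsum : ∀ u : H, ∑ c ∈ S, ‖pr A (σ c) u‖ ^ 2 ≤ ∑ c ∈ S', ‖pr A c u‖ ^ 2 := by
    intro u
    rw [← Finset.sum_image (s := S) (g := σ) (f := fun c => ‖pr A c u‖ ^ 2)
      (fun x _ y _ hxy => hσ hxy)]
    apply Finset.sum_le_sum_of_subset_of_nonneg
    · intro c hc
      obtain ⟨d, hd, rfl⟩ := Finset.mem_image.mp hc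
      exact h d hd
    · intro _ _ _; exact sq_nonneg _
  rcases hs with hs | hs
  · have h1 : ∑ c ∈ S, ‖pr A c v‖ ^ 2 = ∑ c ∈ S, ‖pr A (σ c) w‖ ^ 2 :=
      Finset.sum_congr rfl fun c _ => by rw [hs c]
    rw [h1]
    have h2 := compare A w v S'
    have h3 := hsum w
    linarith
  · have h1 : ∑ c ∈ S, ‖pr A c w‖ ^ 2 = ∑ c ∈ S, ‖pr A (σ c) v‖ ^ 2 :=
      Finset.sum_congr rfl fun c _ => by rw [hs c]
    have h2 := compare A v w S
    have h3 := hsum v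
    rw [norm_sub_rev] at h2
    linarith

theorem std_int (x : ZMod m) : ((ZMod.stdAddChar x : ℂ)).re =
    Real.cos (2 * Real.pi * (x.valMinAbs : ℝ) / m) := by
  conv_lhs => rw [← ZMod.coe_valMinAbs x]
  rw [ZMod.stdAddChar_coe]
  have : (2 * (Real.pi : ℂ) * Complex.I * (x.valMinAbs : ℂ) / (m : ℂ)) =
      ((2 * Real.pi * (x.valMinAbs : ℝ) / m : ℝ) : ℂ) * Complex.I := by
    push_cast; ring
  rw [this, Complex.exp_ofReal_mul_I_re]

theorem std_norm (x : ZMod m) : ‖(ZMod.stdAddChar x : ℂ)‖ = 1 := by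
  rw [ZMod.stdAddChar_apply]; exact Circle.norm_coe _

theorem std_sub_one (x : ZMod m) : ‖(ZMod.stdAddChar x : ℂ) - 1‖ ^ 2 =
    2 - 2 * ((ZMod.stdAddChar x : ℂ)).re := by
  have h := std_norm x
  rw [← Complex.normSq_eq_norm_sq, Complex.normSq_apply]
  have h2 : ((ZMod.stdAddChar x : ℂ)).re * ((ZMod.stdAddChar x : ℂ)).re +
      ((ZMod.stdAddChar x : ℂ)).im * ((ZMod.stdAddChar x : ℂ)).im = 1 := by
    rw [← Complex.normSq_apply, Complex.normSq_eq_norm_sq, h]; norm_num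
  simp only [Complex.sub_re, Complex.sub_im, Complex.one_re, Complex.one_im]
  nlinarith

theorem std_le (x : ZMod m) : ‖(ZMod.stdAddChar x : ℂ) - 1‖ ^ 2 ≤ 4 := by
  have h : ‖(ZMod.stdAddChar x : ℂ) - 1‖ ≤ 2 := by
    calc _ ≤ ‖(ZMod.stdAddChar x : ℂ)‖ + ‖(1 : ℂ)‖ := norm_sub_le _ _
      _ = 2 := by rw [std_norm]; norm_num
  nlinarith [norm_nonneg ((ZMod.stdAddChar x : ℂ) - 1)]

theorem std_ge (x : ZMod m) (h : (m : ℤ) ≤ 4 * |x.valMinAbs|) :
    2 ≤ ‖(ZMod.stdAddChar x : ℂ) - 1‖ ^ 2 := by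
  rw [std_sub_one, std_int]
  have hm : (0 : ℝ) < m := by exact_mod_cast Nat.pos_of_ne_zero (NeZero.ne m)
  have hle : 2 * |(x.valMinAbs : ℝ)| ≤ m := by
    have h1 := ZMod.valMinAbs_mem_Ioc x
    have h2 : 2 * |x.valMinAbs| ≤ (m : ℤ) := by
      rcases abs_cases x.valMinAbs with ⟨h3, _⟩ | ⟨h3, _⟩ <;> rw [h3] <;> have := h1.1 <;> have := h1.2 <;> omega
    exact_mod_cast h2
  have hge : (m : ℝ) ≤ 4 * |(x.valMinAbs : ℝ)| := by exact_mod_cast h
  have habs : Real.cos (2 * Real.pi * (x.valMinAbs : ℝ) / m) =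
      Real.cos (2 * Real.pi * |(x.valMinAbs : ℝ)| / m) := by
    rw [← Real.cos_abs]
    congr 1
    rw [abs_div, abs_mul, abs_mul, abs_of_pos hm, abs_of_pos Real.pi_pos]
    norm_num
  rw [habs]
  have hcos : Real.cos (2 * Real.pi * |(x.valMinAbs : ℝ)| / m) ≤ 0 := by
    apply Real.cos_nonpos_of_pi_div_two_le_of_le
    · rw [le_div_iff₀ hm]
      nlinarith [Real.pi_pos]
    · rw [div_le_iff₀ hm]
      nlinarith [Real.pi_pos]
  linarith

end

theorem relgap : ∃ C : ℝ, 0 < C ∧ ∀ (G H : Type) [Group G] [NormedAddCommGroup H]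
    [InnerProductSpace ℂ H] (ρ : G →* (H ≃ₗᵢ[ℂ] H)) (a b g l : G) (m : ℕ), 0 < m →
    a * b = b * a → g * a = a * g → g * b = a * b * g → l * a = a * b * l → l * b = b * l →
    ρ (a ^ m) = 1 → ρ (b ^ m) = 1 → ∀ (v : H) (s : ℤ), ‖ρ (a ^ s) v - v‖ ^ 2 ≤
      C * (‖ρ a v - v‖ ^ 2 + ‖ρ b v - v‖ ^ 2 + ‖ρ g v - v‖ ^ 2 + ‖ρ l v - v‖ ^ 2) := by
  classical
  refine ⟨320, by norm_num, ?_⟩
  intro G H _ _ _ ρ a b g l m hm hab hga hgb hla hlb ham hbm v s
  have : NeZero m := ⟨hm.ne'⟩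
  set E : ℝ := ‖ρ a v - v‖ ^ 2 + ‖ρ b v - v‖ ^ 2 + ‖ρ g v - v‖ ^ 2 + ‖ρ l v - v‖ ^ 2 with hEdef
  have hα : (ρ a) ^ m = 1 := by rw [← map_pow]; exact ham
  have hβ : (ρ b) ^ m = 1 := by rw [← map_pow]; exact hbm
  have hab' : ρ a * ρ b = ρ b * ρ a := by rw [← map_mul, ← map_mul, hab]
  have hga' : ρ g * ρ a = ρ a * ρ g := by rw [← map_mul, ← map_mul, hga]
  have hgb' : ρ g * ρ b = ρ a * ρ b * ρ g := by rw [← map_mul, ← map_mul, ← map_mul, hgb]
  have hla' : ρ l * ρ a = ρ a * ρ b * ρ l := by rw [← map_mul, ← map_mul, ← map_mul, hla]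
  have hlb' : ρ l * ρ b = ρ b * ρ l := by rw [← map_mul, ← map_mul, hlb]
  let A : ZMod m × ZMod m → (H ≃ₗᵢ[ℂ] H) := fam m (ρ a) (ρ b)
  have hA : ∀ s t, A (s + t) = A s * A t := fam_add _ _ hα hβ hab'
  have ha0 : 0 ≤ ‖ρ a v - v‖ ^ 2 := sq_nonneg _
  have hb0 : 0 ≤ ‖ρ b v - v‖ ^ 2 := sq_nonneg _
  have hg0 : 0 ≤ ‖ρ g v - v‖ ^ 2 := sq_nonneg _
  have hl0 : 0 ≤ ‖ρ l v - v‖ ^ 2 := sq_nonneg _
  have hE0 : 0 ≤ E := by rw [hEdef]; linarith
  have hgE : ‖ρ g v - v‖ ^ 2 ≤ E := by rw [hEdef]; linarith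
  have hlE : ‖ρ l v - v‖ ^ 2 ≤ E := by rw [hEdef]; linarith
  -- covariance
  have cg : ∀ c : ZMod m × ZMod m, ‖pr A (c.1, c.2 - c.1) (ρ g v)‖ = ‖pr A c v‖ := by
    intro c
    have h := covar A (ρ g) (sh1 m) (fun s => fam_g _ _ _ hα hab' hga' hgb' s) c (c.1, c.2 - c.1)
      (fun s => by simp only [dt, sh1, Equiv.coe_fn_mk]; ring) v
    rw [← h, LinearIsometryEquiv.norm_map]
  have cl : ∀ c : ZMod m × ZMod m, ‖pr A (c.1 - c.2, c.2) (ρ l v)‖ = ‖pr A c v‖ := by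
    intro c
    have h := covar A (ρ l) (sh2 m) (fun s => fam_l _ _ _ hβ hab' hla' hlb' s) c (c.1 - c.2, c.2)
      (fun s => by simp only [dt, sh2, Equiv.coe_fn_mk]; ring) v
    rw [← h, LinearIsometryEquiv.norm_map]
  have cg' : ∀ c : ZMod m × ZMod m, ‖pr A (c.1, c.2 + c.1) v‖ = ‖pr A c (ρ g v)‖ := by
    intro c
    rw [← cg (c.1, c.2 + c.1)]
    simp
  have cl' : ∀ c : ZMod m × ZMod m, ‖pr A (c.1 + c.2, c.2) v‖ = ‖pr A c (ρ l v)‖ := by
    intro c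
    rw [← cl (c.1 + c.2, c.2)]
    simp
  -- displacement formulas
  have disp : ∀ t : ZMod m × ZMod m, ‖A t v - v‖ ^ 2 =
      ∑ c, ‖(ZMod.stdAddChar (dt c t) : ℂ) - 1‖ ^ 2 * ‖pr A c v‖ ^ 2 := by
    intro t
    rw [← parseval A]
    refine Finset.sum_congr rfl fun c _ => ?_
    rw [pr_sub, eigen A hA]
    have : (ZMod.stdAddChar (dt c t) : ℂ) • pr A c v - pr A c v =
        ((ZMod.stdAddChar (dt c t) : ℂ) - 1) • pr A c v := by rw [sub_smul, one_smul]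
    rw [this, norm_smul, mul_pow]
  have hone : ∀ (α : H ≃ₗᵢ[ℂ] H) (_ : α ^ m = 1) (n : ℤ), α ^ ((n : ZMod m)).val = α ^ n := by
    intro α h n
    have h1 : ((((n : ZMod m)).val : ℕ) : ℤ) = n % (m : ℤ) := ZMod.val_intCast n
    rw [← zpow_natCast, h1]
    have h2 : α ^ n = α ^ (n % (m : ℤ) + (m : ℤ) * (n / (m : ℤ))) := by rw [Int.emod_add_mul_ediv]
    rw [h2, zpow_add, zpow_mul, zpow_natCast, h, one_zpow, mul_one]
  have hAa : ∀ n : ℤ, A ((n : ZMod m), 0) = ρ (a ^ n) := by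
    intro n
    show (ρ a) ^ ((n : ZMod m)).val * (ρ b) ^ ((0 : ZMod m)).val = _
    rw [hone _ hα, ZMod.val_zero, pow_zero, mul_one, map_zpow]
  have hAb : ∀ n : ℤ, A (0, (n : ZMod m)) = ρ (b ^ n) := by
    intro n
    show (ρ a) ^ ((0 : ZMod m)).val * (ρ b) ^ ((n : ZMod m)).val = _
    rw [hone _ hβ, ZMod.val_zero, pow_zero, one_mul, map_zpow]
  have hfar : ∑ c ∈ univ.filter (fun c : ZMod m × ZMod m => ¬ Near c), ‖pr A c v‖ ^ 2 ≤ E / 2 := by
    have h1 := disp (((1 : ℤ) : ZMod m), 0)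
    have h2 := disp (0, ((1 : ℤ) : ZMod m))
    rw [hAa, zpow_one] at h1
    rw [hAb, zpow_one] at h2
    have h3 : 2 * ∑ c ∈ univ.filter (fun c : ZMod m × ZMod m => ¬ Near c), ‖pr A c v‖ ^ 2 ≤
        ‖ρ a v - v‖ ^ 2 + ‖ρ b v - v‖ ^ 2 := by
      rw [h1, h2, ← Finset.sum_add_distrib, Finset.mul_sum]
      refine le_trans (Finset.sum_le_sum (g := fun c : ZMod m × ZMod m =>
        ‖(ZMod.stdAddChar (dt c (((1 : ℤ) : ZMod m), 0)) : ℂ) - 1‖ ^ 2 * ‖pr A c v‖ ^ 2 +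
        ‖(ZMod.stdAddChar (dt c (0, ((1 : ℤ) : ZMod m))) : ℂ) - 1‖ ^ 2 * ‖pr A c v‖ ^ 2) ?_) ?_
      · intro c hc
        rw [← add_mul]
        apply mul_le_mul_of_nonneg_right _ (sq_nonneg _)
        have hn := (Finset.mem_filter.mp hc).2
        have e1 : dt c (((1 : ℤ) : ZMod m), 0) = c.1 := by simp [dt]
        have e2 : dt c (0, ((1 : ℤ) : ZMod m)) = c.2 := by simp [dt]
        rw [e1, e2]
        have n1 := sq_nonneg ‖(ZMod.stdAddChar c.1 : ℂ) - 1‖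
        have n2 := sq_nonneg ‖(ZMod.stdAddChar c.2 : ℂ) - 1‖
        unfold Near at hn
        by_cases h : (m : ℤ) ≤ 4 * |c.1.valMinAbs|
        · have := std_ge c.1 h; linarith
        · have h' : (m : ℤ) ≤ 4 * |c.2.valMinAbs| := by
            by_contra h''
            exact hn ⟨not_le.mp h, not_le.mp h''⟩
          have := std_ge c.2 h'; linarith
      · apply Finset.sum_le_sum_of_subset_of_nonneg (Finset.subset_univ _)
        intro c _ _
        positivity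
    linarith
  have hmain := measure (fun c => ‖pr A c v‖ ^ 2) (fun _ => sq_nonneg _) E hE0
    (fun S S' h => transfer A v (ρ g v) E hgE (fun c => (c.1, c.2 + c.1))
      (fun x y hxy => by
        simp only [Prod.mk.injEq] at hxy
        obtain ⟨e1, e2⟩ := hxy
        rw [e1] at e2
        exact Prod.ext e1 (add_right_cancel e2)) (Or.inr cg') S S' h)
    (fun S S' h => transfer A v (ρ g v) E hgE (fun c => (c.1, c.2 - c.1))
      (fun x y hxy => by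
        simp only [Prod.mk.injEq] at hxy
        obtain ⟨e1, e2⟩ := hxy
        rw [e1] at e2
        exact Prod.ext e1 (sub_left_injective e2)) (Or.inl cg) S S' h)
    (fun S S' h => transfer A v (ρ l v) E hlE (fun c => (c.1 + c.2, c.2))
      (fun x y hxy => by
        simp only [Prod.mk.injEq] at hxy
        obtain ⟨e1, e2⟩ := hxy
        rw [e2] at e1
        exact Prod.ext (add_right_cancel e1) e2) (Or.inr cl') S S' h)
    (fun S S' h => transfer A v (ρ l v) E hlE (fun c => (c.1 - c.2, c.2))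
      (fun x y hxy => by
        simp only [Prod.mk.injEq] at hxy
        obtain ⟨e1, e2⟩ := hxy
        rw [e2] at e1
        exact Prod.ext (sub_left_injective e1) e2) (Or.inl cl) S S' h)
    hfar
  have hfin := disp ((s : ZMod m), 0)
  rw [hAa] at hfin
  rw [hfin]
  have h5 : ∑ c : ZMod m × ZMod m, ‖(ZMod.stdAddChar (dt c ((s : ZMod m), 0)) : ℂ) - 1‖ ^ 2 *
      ‖pr A c v‖ ^ 2 ≤ 4 * ∑ c ∈ univ.filter (fun c : ZMod m × ZMod m => c ≠ 0), ‖pr A c v‖ ^ 2 := by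
    rw [Finset.mul_sum, Finset.sum_filter]
    refine Finset.sum_le_sum fun c _ => ?_
    by_cases hc : c = 0
    · subst hc
      simp [dt]
    · rw [if_pos hc]
      exact mul_le_mul_of_nonneg_right (std_le _) (sq_nonneg _)
  have hmain' : ∑ c ∈ univ.filter (fun c : ZMod m × ZMod m => c ≠ 0), ‖pr A c v‖ ^ 2 ≤ 80 * E := by
    convert hmain using 2
  linarith

end Pool.Agent.TAU97
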